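import Pool.Agent.SepQ.Prod

/-!
# Zeros of norm forms over `ℚ[t]`
-/

open Polynomial UniqueFactorizationMonoid

namespace Pool.Agent.SepQ

variable {k : Type*} [Field k] [CharZero k] [DecidableEq k]


open Classical in
/-- the roots of `q` -/
noncomputable def Bq (q : k[X]) : Finset (AlgebraicClosure k) := (q.map (algebraMap k (AlgebraicClosure k))).roots.toFinset

omit [CharZero k] [DecidableEq k] in
lemma mem_Bq {q : k[X]} (hq : q ≠ 0) {β : (AlgebraicClosure k)} : β ∈ Bq q ↔ aeval β q = 0 := by
  classical
  rw [Bq, Multiset.mem_toFinset, mem_roots ((Polynomial.map_ne_zero_iff (algebraMap k (AlgebraicClosure k)).injective).2 hq),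
    IsRoot, eval_map, ← aeval_def]

omit [DecidableEq k] in
lemma card_Bq {q : k[X]} (hq : Irreducible q) : (Bq q).card = q.natDegree := by
  classical
  have hs : (q.map (algebraMap k (AlgebraicClosure k))).Separable := hq.separable.map
  have hsp : (q.map (algebraMap k (AlgebraicClosure k))).Splits := IsAlgClosed.splits _
  rw [Bq, Multiset.toFinset_card_of_nodup (nodup_roots hs), ← hsp.natDegree_eq_card_roots,
    natDegree_map]

open Classical in
/-- the number of zeros of `f` (with multiplicity) among the roots of `q` -/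
noncomputable def nz (q : k[X]) (f : (AlgebraicClosure k)[X]) : ℕ := ∑ β ∈ Bq q, f.roots.count β

lemma nz_map {q f : k[X]} (hq : Irreducible q) (hm : q.Monic) (hf : f ≠ 0) :
    nz q (f.map (algebraMap k (AlgebraicClosure k))) = q.natDegree * (normalizedFactors f).count q := by
  classical
  have hfin : FiniteMultiplicity q f := FiniteMultiplicity.of_prime_left hq.prime hf
  obtain ⟨h, hfh, hqh⟩ := hfin.exists_eq_pow_mul_and_not_dvd
  have hv : multiplicity q f = (normalizedFactors f).count q := by
    have h1 := emultiplicity_eq_count_normalizedFactors hq hf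
    rw [hm.normalize_eq_self, hfin.emultiplicity_eq_multiplicity] at h1
    exact_mod_cast h1
  rw [hv] at hfh
  set v := (normalizedFactors f).count q with hvdef
  have hh0 : h ≠ 0 := by
    rintro rfl
    rw [mul_zero] at hfh
    exact hf hfh
  have hne : (q.map (algebraMap k (AlgebraicClosure k)) ^ v * h.map (algebraMap k (AlgebraicClosure k))) ≠ 0 := by
    rw [← Polynomial.map_pow, ← Polynomial.map_mul, ← hfh]
    exact (Polynomial.map_ne_zero_iff (algebraMap k (AlgebraicClosure k)).injective).2 hf
  have h1 : ∀ β ∈ Bq q, (f.map (algebraMap k (AlgebraicClosure k))).roots.count β = v := by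
    intro β hβ
    have hroot : aeval β q = 0 := (mem_Bq hq.ne_zero).1 hβ
    rw [hfh, Polynomial.map_mul, Polynomial.map_pow, roots_mul hne, roots_pow, Multiset.count_add,
      Multiset.count_nsmul]
    have h2 : (q.map (algebraMap k (AlgebraicClosure k))).roots.count β = 1 := by
      refine Multiset.count_eq_one_of_mem (nodup_roots hq.separable.map) ?_
      rwa [Bq, Multiset.mem_toFinset] at hβ
    have h3 : (h.map (algebraMap k (AlgebraicClosure k))).roots.count β = 0 := by
      rw [Multiset.count_eq_zero, mem_roots ((Polynomial.map_ne_zero_iff (algebraMap k (AlgebraicClosure k)).injective).2 hh0),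
        IsRoot, eval_map, ← aeval_def]
      intro h4
      apply hqh
      rw [minpoly.eq_of_irreducible_of_monic hq hroot hm]
      exact minpoly.dvd k β h4
    rw [h2, h3, mul_one, add_zero]
  rw [nz, Finset.sum_congr rfl h1, Finset.sum_const, card_Bq hq, smul_eq_mul]

/-- invariance under automorphisms -/
lemma nz_aut {q : k[X]} (hq : q ≠ 0) (f : (AlgebraicClosure k)[X]) (τ : (AlgebraicClosure k) ≃ₐ[k] (AlgebraicClosure k)) :
    nz q (f.map (τ : (AlgebraicClosure k) →+* (AlgebraicClosure k))) = nz q f := by
  classical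
  have h1 : (f.map (τ : (AlgebraicClosure k) →+* (AlgebraicClosure k))).roots = f.roots.map (τ : (AlgebraicClosure k) →+* (AlgebraicClosure k)) :=
    (IsAlgClosed.splits f).roots_map _
  symm
  refine Finset.sum_equiv τ.toEquiv (fun β => ?_) (fun β _ => ?_)
  · rw [mem_Bq hq, mem_Bq hq]
    have : aeval (τ.toEquiv β) q = τ (aeval β q) := (aeval_algHom_apply τ.toAlgHom β q)
    rw [this, map_eq_zero_iff τ τ.injective]
  · rw [h1]
    exact (Multiset.count_map_eq_count' (τ : (AlgebraicClosure k) →+* (AlgebraicClosure k)) _ (τ : (AlgebraicClosure k) →+* (AlgebraicClosure k)).injective β).symm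

omit [CharZero k] [DecidableEq k] in
lemma nz_prod {ι : Type*} (q : k[X]) (s : Finset ι) (p : ι → (AlgebraicClosure k)[X]) (hp : ∏ i ∈ s, p i ≠ 0) :
    nz q (∏ i ∈ s, p i) = ∑ i ∈ s, nz q (p i) := by
  classical
  unfold nz
  rw [Finset.sum_comm]
  refine Finset.sum_congr rfl fun β _ => ?_
  rw [roots_prod _ _ hp, Multiset.count_bind]
  rfl

/-- The main divisibility. -/
theorem dvd_count {N : ℕ} [NeZero N] {a : k} (ha : a ≠ 0)
    (hirr : Irreducible (X ^ N - C a : k[X])) (U : Fin N → k[X]) (hU : nf N (C a) U ≠ 0)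
    {q : k[X]} (hq : Irreducible q) (hm : q.Monic) :
    N ∣ q.natDegree * (normalizedFactors (nf N (C a) U)).count q := by
  classical
  rw [← nz_map hq hm hU]
  obtain ⟨e, he, hr, -⟩ := exists_roots (L := (AlgebraicClosure k)) N (a := (algebraMap k (AlgebraicClosure k)) a)
    (by rw [Ne, FaithfulSMul.algebraMap_eq_zero_iff]; exact ha)
  have hprod : (nf N (C a) U).map (algebraMap k (AlgebraicClosure k)) = ∏ i, ∑ m, (U m).map (algebraMap k (AlgebraicClosure k)) * (C (e i)) ^ (m : ℕ) := by
    have h1 := nf_map (Polynomial.mapRingHom (algebraMap k (AlgebraicClosure k))) N (C a) U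
    rw [coe_mapRingHom, Polynomial.map_C] at h1
    rw [h1]
    exact nf_eq_prod (fun i j h => he (C_injective h)) (fun i => by rw [← C_pow, hr i]) _
  rw [hprod, nz_prod _ _ _ (by
    rw [← hprod]
    exact (Polynomial.map_ne_zero_iff (algebraMap k (AlgebraicClosure k)).injective).2 hU)]
  let i₀ : Fin N := ⟨0, NeZero.pos N⟩
  have hc : ∀ i ∈ Finset.univ, nz q (∑ m, (U m).map (algebraMap k (AlgebraicClosure k)) * (C (e i)) ^ (m : ℕ)) =
      nz q (∑ m, (U m).map (algebraMap k (AlgebraicClosure k)) * (C (e i₀)) ^ (m : ℕ)) := by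
    intro i _
    have hint : IsAlgebraic k (e i₀) := Algebra.IsAlgebraic.isAlgebraic _
    have hmin : minpoly k (e i₀) = X ^ N - C a := by
      refine (minpoly.eq_of_irreducible_of_monic hirr ?_ (monic_X_pow_sub_C a (NeZero.ne N))).symm
      rw [map_sub, map_pow, aeval_X, aeval_C, hr i₀, sub_self]
    obtain ⟨τ, hτ⟩ := minpoly.exists_algEquiv_of_root' (K := k) (L := (AlgebraicClosure k)) hint (x := e i) (by
      rw [hmin, map_sub, map_pow, aeval_X, aeval_C, hr i, sub_self])
    rw [← nz_aut hq.ne_zero (∑ m, (U m).map (algebraMap k (AlgebraicClosure k)) * (C (e i₀)) ^ (m : ℕ)) τ]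
    congr 1
    rw [Polynomial.map_sum]
    refine Finset.sum_congr rfl fun m _ => ?_
    rw [Polynomial.map_mul, Polynomial.map_pow, Polynomial.map_C, Polynomial.map_map]
    congr 1
    · congr 1
      ext x
      simp
    · congr 2
      exact hτ.symm
  rw [Finset.sum_congr rfl hc, Finset.sum_const, Finset.card_univ, Fintype.card_fin, smul_eq_mul]
  exact Dvd.intro _ rfl

end Pool.Agent.SepQ
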