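import Pool.Agent.SepQ.Arith
import Pool.Agent.SepQ.Geo

/-!
# Products of norms in `ℚ(t)`
-/

open Polynomial UniqueFactorizationMonoid

namespace Pool.Agent.SepQ

lemma natDegree_eq_sum {f : ℚ[X]} (hf : f ≠ 0) :
    f.natDegree = ∑ q ∈ (normalizedFactors f).toFinset,
      (normalizedFactors f).count q * q.natDegree := by
  have h1 : f.natDegree = (normalizedFactors f).prod.natDegree :=
    (natDegree_eq_of_degree_eq (degree_eq_degree_of_associated
      (prod_normalizedFactors hf))).symm
  have h0 : (0 : ℚ[X]) ∉ normalizedFactors f := fun h =>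
    (irreducible_of_normalized_factor 0 h).ne_zero rfl
  rw [h1, natDegree_multiset_prod _ h0, Finset.sum_multiset_map_count]
  simp

lemma dvd_natDegree {N : ℕ} {f : ℚ[X]} (hf : f ≠ 0)
    (h : ∀ q : ℚ[X], q.Monic → Irreducible q → N ∣ q.natDegree * (normalizedFactors f).count q) :
    N ∣ f.natDegree := by
  rw [natDegree_eq_sum hf]
  refine Finset.dvd_sum fun q hq => ?_
  rw [Multiset.mem_toFinset] at hq
  have h1 := irreducible_of_normalized_factor q hq
  have h2 : q.Monic := by
    rw [← normalize_normalized_factor q hq]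
    exact monic_normalize h1.ne_zero
  rw [mul_comm]
  exact h q h2 h1

/-- The zeros and poles of a product of norms. -/
theorem main_count {N : ℕ} [NeZero N] {m : ℕ} {a : Fin m → ℕ}
    (hirr : ∀ i, Irreducible (X ^ N - C (a i : ℚ) : ℚ[X])) (ha : ∀ i, a i ≠ 0)
    {x : RatFunc ℚ} (hx : x ≠ 0) {w : Fin m → Fin N → RatFunc ℚ}
    (h : x = ∏ i, nf N (a i : RatFunc ℚ) (w i)) {q : ℚ[X]} (hm : q.Monic) (hq : Irreducible q) :
    N ∣ q.natDegree * (normalizedFactors x.num).count q ∧
      N ∣ q.natDegree * (normalizedFactors x.denom).count q := by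
  classical
  obtain ⟨d, hd⟩ := IsLocalization.exist_integer_multiples_of_finite (nonZeroDivisors ℚ[X])
    (fun ik : Fin m × Fin N => w ik.1 ik.2)
  choose U hU using hd
  have hd0 : (d : ℚ[X]) ≠ 0 := nonZeroDivisors.coe_ne_zero d
  have hnf : ∀ i, algebraMap ℚ[X] (RatFunc ℚ) (nf N (C (a i : ℚ)) (fun k => U (i, k))) =
      algebraMap ℚ[X] (RatFunc ℚ) d ^ N * nf N (a i : RatFunc ℚ) (w i) := by
    intro i
    rw [nf_map, ← nf_smul]
    congr 1
    · simp
    · funext k
      rw [hU (i, k), Algebra.smul_def]
  have hdK : algebraMap ℚ[X] (RatFunc ℚ) d ≠ 0 := by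
    rw [Ne, FaithfulSMul.algebraMap_eq_zero_iff]
    exact hd0
  have hprod : x.num * (d : ℚ[X]) ^ (N * m) =
      x.denom * ∏ i, nf N (C (a i : ℚ)) (fun k => U (i, k)) := by
    apply RatFunc.algebraMap_injective ℚ
    rw [map_mul, map_mul, map_pow, map_prod, Finset.prod_congr rfl fun i _ => hnf i,
      Finset.prod_mul_distrib, ← h, Finset.prod_const, Finset.card_univ, Fintype.card_fin, ← pow_mul]
    have h1 := RatFunc.num_div_denom x
    have h2 : algebraMap ℚ[X] (RatFunc ℚ) x.denom ≠ 0 := by
      rw [Ne, FaithfulSMul.algebraMap_eq_zero_iff]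
      exact RatFunc.denom_ne_zero x
    rw [div_eq_iff h2] at h1
    rw [h1]
    ring
  have hnum : x.num ≠ 0 := RatFunc.num_ne_zero hx
  have hden : x.denom ≠ 0 := RatFunc.denom_ne_zero x
  have hR : x.denom * ∏ i, nf N (C (a i : ℚ)) (fun k => U (i, k)) ≠ 0 := by
    rw [← hprod]
    exact mul_ne_zero hnum (pow_ne_zero _ hd0)
  have hnf0 : ∀ i ∈ Finset.univ, nf N (C (a i : ℚ)) (fun k => U (i, k)) ≠ 0 :=
    Finset.prod_ne_zero_iff.1 (right_ne_zero_of_mul hR)
  have hcount : (normalizedFactors x.num).count q + (N * m) * (normalizedFactors (d : ℚ[X])).count q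
      = (normalizedFactors x.denom).count q +
        ∑ i, (normalizedFactors (nf N (C (a i : ℚ)) (fun k => U (i, k)))).count q := by
    have h1 : (normalizedFactors (x.num * (d : ℚ[X]) ^ (N * m))).count q = (normalizedFactors
        (x.denom * ∏ i, nf N (C (a i : ℚ)) (fun k => U (i, k)))).count q := by rw [hprod]
    rw [normalizedFactors_mul hnum (pow_ne_zero _ hd0), normalizedFactors_pow,
      normalizedFactors_mul hden (right_ne_zero_of_mul hR), Multiset.count_add,
      Multiset.count_nsmul, Multiset.count_add] at h1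
    rw [h1]
    congr 1
    have h2 : ∀ s : Finset (Fin m), (normalizedFactors (∏ i ∈ s,
        nf N (C (a i : ℚ)) (fun k => U (i, k)))).count q =
        ∑ i ∈ s, (normalizedFactors (nf N (C (a i : ℚ)) (fun k => U (i, k)))).count q := by
      intro s
      induction s using Finset.induction_on with
      | empty => simp
      | insert i s his ih =>
        rw [Finset.prod_insert his, Finset.sum_insert his, normalizedFactors_mul
          (hnf0 i (Finset.mem_univ i)) (Finset.prod_ne_zero_iff.2 fun j _ =>
            hnf0 j (Finset.mem_univ j)), Multiset.count_add, ih]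
    exact h2 Finset.univ
  have hsum : N ∣ q.natDegree *
      ∑ i, (normalizedFactors (nf N (C (a i : ℚ)) (fun k => U (i, k)))).count q := by
    rw [Finset.mul_sum]
    exact Finset.dvd_sum fun i hi => dvd_count (Nat.cast_ne_zero.2 (ha i)) (hirr i) _ (hnf0 i hi) hq hm
  have hz : (normalizedFactors x.num).count q = 0 ∨ (normalizedFactors x.denom).count q = 0 := by
    by_contra hcon
    push Not at hcon
    have h1 : q ∣ x.num := dvd_of_mem_normalizedFactors
      (Multiset.count_pos.1 (Nat.pos_of_ne_zero hcon.1))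
    have h2 : q ∣ x.denom := dvd_of_mem_normalizedFactors
      (Multiset.count_pos.1 (Nat.pos_of_ne_zero hcon.2))
    exact hq.not_isUnit ((RatFunc.isCoprime_num_denom x).isUnit_of_dvd' h1 h2)
  rcases hz with hz | hz
  · refine ⟨by rw [hz, mul_zero]; exact dvd_zero _, ?_⟩
    rw [hz, zero_add] at hcount
    have h3 : q.natDegree * ((N * m) * (normalizedFactors (d : ℚ[X])).count q) =
        q.natDegree * (normalizedFactors x.denom).count q + q.natDegree *
        ∑ i, (normalizedFactors (nf N (C (a i : ℚ)) (fun k => U (i, k)))).count q := by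
      rw [hcount, mul_add]
    refine (Nat.dvd_add_left hsum).1 ?_
    rw [← h3]
    exact ⟨q.natDegree * (m * (normalizedFactors (d : ℚ[X])).count q), by ring⟩
  · refine ⟨?_, by rw [hz, mul_zero]; exact dvd_zero _⟩
    rw [hz, zero_add] at hcount
    have h3 : q.natDegree * (normalizedFactors x.num).count q +
        q.natDegree * ((N * m) * (normalizedFactors (d : ℚ[X])).count q) =
        q.natDegree *
        ∑ i, (normalizedFactors (nf N (C (a i : ℚ)) (fun k => U (i, k)))).count q := by
      rw [← hcount, mul_add]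
    have h4 : N ∣ q.natDegree * ((N * m) * (normalizedFactors (d : ℚ[X])).count q) :=
      ⟨q.natDegree * (m * (normalizedFactors (d : ℚ[X])).count q), by ring⟩
    refine (Nat.dvd_add_left h4).1 ?_
    rw [h3]
    exact hsum

end Pool.Agent.SepQ
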