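import Pool.Agent.SepQ.NForm

/-!
# The norm form as a product over the roots
-/

open Polynomial

namespace Pool.Agent.SepQ

lemma nf_eq_prod {S : Type*} [CommRing S] [IsDomain S] {N : ℕ} [NeZero N] {a : S}
    {e : Fin N → S} (he : Function.Injective e) (hr : ∀ i, e i ^ N = a) (u : Fin N → S) :
    nf N a u = ∏ i, ∑ k, u k * e i ^ (k : ℕ) := by
  have h1 : Matrix.vandermonde e * nmat N a u =
      Matrix.diagonal (fun i => ∑ k, u k * e i ^ (k : ℕ)) * Matrix.vandermonde e := by
    ext i j
    rw [Matrix.mul_apply, Matrix.diagonal_mul, Matrix.vandermonde_apply]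
    have h := key (RingHom.id S) (n := N) (a := a) (g := e i) (hr i) u j
    simp only [RingHom.id_apply] at h
    rw [h]
    exact Finset.sum_congr rfl fun k _ => by rw [Matrix.vandermonde_apply, mul_comm]
  have h2 := congrArg Matrix.det h1
  rw [Matrix.det_mul, Matrix.det_mul, Matrix.det_diagonal, mul_comm] at h2
  exact mul_right_cancel₀ (Matrix.det_vandermonde_ne_zero_iff.2 he) h2

lemma exists_roots {L : Type*} [Field L] [IsAlgClosed L] [CharZero L] (N : ℕ) [NeZero N] {a : L}
    (ha : a ≠ 0) : ∃ e : Fin N → L, Function.Injective e ∧ (∀ i, e i ^ N = a) ∧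
      (X ^ N - C a : L[X]) = ∏ i, (X - C (e i)) := by
  classical
  have hN : (N : L) ≠ 0 := Nat.cast_ne_zero.2 (NeZero.ne N)
  have hsep : (X ^ N - C a : L[X]).Separable := separable_X_pow_sub_C a hN ha
  have hspl : (X ^ N - C a : L[X]).Splits := IsAlgClosed.splits _
  have hnd : (X ^ N - C a : L[X]).roots.Nodup := nodup_roots hsep
  have hcard : (X ^ N - C a : L[X]).roots.toFinset.card = N := by
    rw [Multiset.toFinset_card_of_nodup hnd, ← hspl.natDegree_eq_card_roots,
      natDegree_X_pow_sub_C]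
  let E := ((X ^ N - C a : L[X]).roots.toFinset.equivFinOfCardEq hcard).symm
  refine ⟨fun i => (E i : L), Subtype.val_injective.comp E.injective, fun i => ?_, ?_⟩
  · have h1 := (E i).2
    rw [Multiset.mem_toFinset, mem_roots'] at h1
    have h2 := h1.2
    rw [IsRoot, eval_sub, eval_pow, eval_X, eval_C, sub_eq_zero] at h2
    exact h2
  · rw [Equiv.prod_comp E (fun x => (X - C (x : L))), Finset.prod_coe_sort _ (fun x => X - C x),
      Finset.prod, Multiset.toFinset_val, hnd.dedup]
    exact (hspl.eq_prod_roots_of_monic (monic_X_pow_sub_C a (NeZero.ne N)))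

/-- `1 - θ` has norm `1 - a`. -/
lemma exists_nf_one_sub {N : ℕ} [NeZero N] (hN : 2 ≤ N) {a : ℚ} (ha : a ≠ 0) :
    ∃ u : Fin N → ℚ, nf N a u = 1 - a := by
  let L := AlgebraicClosure ℚ
  obtain ⟨e, he, hr, hp⟩ := exists_roots (L := L) N
    (a := algebraMap ℚ L a) (by rw [Ne, FaithfulSMul.algebraMap_eq_zero_iff]; exact ha)
  let k0 : Fin N := ⟨0, by omega⟩
  let k1 : Fin N := ⟨1, by omega⟩
  refine ⟨fun k => (if k = k0 then 1 else 0) - (if k = k1 then 1 else 0), ?_⟩
  apply (algebraMap ℚ L).injective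
  rw [nf_map, nf_eq_prod he hr]
  have h1 : ∀ i, ∑ k : Fin N, algebraMap ℚ L ((if k = k0 then 1 else 0) -
      (if k = k1 then 1 else 0)) * e i ^ (k : ℕ) = 1 - e i := by
    intro i
    have h2 : ∀ k : Fin N, algebraMap ℚ L ((if k = k0 then 1 else 0) -
        (if k = k1 then 1 else 0)) * e i ^ (k : ℕ) =
        (if k = k0 then e i ^ (k : ℕ) else 0) - (if k = k1 then e i ^ (k : ℕ) else 0) := by
      intro k
      rw [map_sub, sub_mul]
      congr 1 <;> split_ifs <;> simp
    rw [Finset.sum_congr rfl fun k _ => h2 k, Finset.sum_sub_distrib, Finset.sum_ite_eq' _ k0,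
      Finset.sum_ite_eq' _ k1, if_pos (Finset.mem_univ _), if_pos (Finset.mem_univ _)]
    simp only [k0, k1, pow_zero, pow_one]
  rw [Finset.prod_congr rfl fun i _ => h1 i]
  have h2 := congrArg (Polynomial.eval 1) hp
  rw [eval_prod] at h2
  simp only [eval_sub, eval_pow, eval_X, eval_C, one_pow] at h2
  rw [← h2, map_sub, map_one]

end Pool.Agent.SepQ
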