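import Pool.Agent.SepQ.Irr
import Pool.Agent.SepQ.Prod

/-!
# Every rational number is a product of norms from finitely many pure extensions
-/

open Polynomial

namespace Pool.Agent.SepQ

/-- `c` is a product of values of the norm forms of `θ^N = a i`. -/
def Rep {ι : Type*} [Fintype ι] (N : ℕ) [NeZero N] (a : ι → ℕ) (c : ℚ) : Prop :=
  ∃ u : ι → Fin N → ℚ, c = ∏ i, nf N (a i : ℚ) (u i)

section Rep

variable {ι : Type*} [Fintype ι] {N : ℕ} [NeZero N] {a : ι → ℕ}

lemma Rep.mul {c d : ℚ} (hc : Rep N a c) (hd : Rep N a d) : Rep N a (c * d) := by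
  obtain ⟨u, rfl⟩ := hc
  obtain ⟨v, rfl⟩ := hd
  choose w hw using fun i => nf_mul N (a i : ℚ) (u i) (v i)
  exact ⟨w, by rw [← Finset.prod_mul_distrib]; exact Finset.prod_congr rfl fun i _ => hw i⟩

lemma rep_single (i : ι) (u : Fin N → ℚ) : Rep N a (nf N (a i : ℚ) u) := by
  classical
  choose w hw using fun j => nf_pow N (a j : ℚ) 1
  refine ⟨fun j => if j = i then u else w j, ?_⟩
  rw [Finset.prod_eq_single i]
  · simp
  · intro j _ hj
    show nf N (a j : ℚ) (if j = i then u else w j) = 1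
    rw [if_neg hj, ← hw j, one_pow]
  · simp

lemma rep_pow (i : ι) (c : ℚ) : Rep N a (c ^ N) := by
  obtain ⟨w, hw⟩ := nf_pow N (a i : ℚ) c
  rw [hw]
  exact rep_single i w

lemma rep_one [Nonempty ι] : Rep N a 1 := by
  have := rep_pow (N := N) (a := a) (Classical.arbitrary ι) 1
  rwa [one_pow] at this

lemma Rep.pow [Nonempty ι] {c : ℚ} (hc : Rep N a c) (k : ℕ) : Rep N a (c ^ k) := by
  induction k with
  | zero => rw [pow_zero]; exact rep_one
  | succ k ih => rw [pow_succ]; exact ih.mul hc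

lemma Rep.inv [Nonempty ι] {c : ℚ} (hc : Rep N a c) : Rep N a c⁻¹ := by
  by_cases h0 : c = 0
  · rw [h0, inv_zero, ← h0]
    exact hc
  have h1 : c⁻¹ = c ^ (N - 1) * c⁻¹ ^ N := by
    obtain ⟨m, hm⟩ : ∃ m, N = m + 1 := ⟨N - 1, by have := NeZero.pos N; omega⟩
    rw [hm, Nat.add_sub_cancel, pow_succ, ← mul_assoc, ← mul_pow, mul_inv_cancel₀ h0, one_pow,
      one_mul]
  rw [h1]
  exact (hc.pow _).mul (rep_pow (Classical.arbitrary ι) _)

lemma rep_neg_one [Nonempty ι] {i : ι} (hi : a i = 2) : Rep N a (-1) := by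
  rcases Nat.even_or_odd N with he | ho
  · have h2 : 2 ≤ N := by
      have := NeZero.pos N
      rcases he with ⟨k, hk⟩
      omega
    obtain ⟨u, hu⟩ := exists_nf_one_sub (N := N) h2 (a := 2) (by norm_num)
    have := rep_single (N := N) (a := a) i u
    rw [hi] at this
    push_cast at this
    rw [hu] at this
    norm_num at this
    exact this
  · have := rep_pow (N := N) (a := a) (Classical.arbitrary ι) (-1)
    rwa [ho.neg_one_pow] at this

lemma rep_self [Nonempty ι] {i₀ : ι} (h2 : a i₀ = 2) (i : ι) : Rep N a (a i : ℚ) := by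
  obtain ⟨w, hw⟩ := nf_root N (a i : ℚ)
  have h1 : |nf N (a i : ℚ) w| = |(a i : ℚ)| := by
    rw [← pow_left_inj₀ (abs_nonneg _) (abs_nonneg _) (NeZero.ne N), ← abs_pow, hw, abs_pow]
  rcases abs_eq_abs.1 h1 with h | h
  · rw [← h]
    exact rep_single i w
  · have : (a i : ℚ) = -1 * nf N (a i : ℚ) w := by rw [h]; ring
    rw [this]
    exact (rep_neg_one h2).mul (rep_single i w)

/-- It is enough to treat primes. -/
lemma rep_of_primes [Nonempty ι] {i₀ : ι} (h2 : a i₀ = 2)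
    (h : ∀ p : ℕ, p.Prime → Rep N a (p : ℚ)) (c : ℚ) (hc : c ≠ 0) : Rep N a c := by
  have hnat : ∀ n : ℕ, n ≠ 0 → Rep N a (n : ℚ) := by
    intro n
    induction n using Nat.recOnMul with
    | zero => intro h0; exact absurd rfl h0
    | one => intro _; rw [Nat.cast_one]; exact rep_one
    | prime p hp => intro _; exact h p hp
    | mul m n hm hn =>
      intro h0
      rw [Nat.cast_mul]
      exact (hm (left_ne_zero_of_mul h0)).mul (hn (right_ne_zero_of_mul h0))
  have hint : ∀ n : ℤ, n ≠ 0 → Rep N a (n : ℚ) := by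
    intro n hn
    rcases Int.natAbs_eq n with h | h
    · rw [h, Int.cast_natCast]
      exact hnat _ (Int.natAbs_ne_zero.2 hn)
    · rw [h]
      have : (((-(n.natAbs : ℤ)) : ℤ) : ℚ) = -1 * (n.natAbs : ℚ) := by
        rw [Int.cast_neg, Int.cast_natCast]; ring
      rw [this]
      exact (rep_neg_one h2).mul (hnat _ (Int.natAbs_ne_zero.2 hn))
  have hcd : c = (c.num : ℚ) * ((c.den : ℚ))⁻¹ := by
    rw [← div_eq_mul_inv, Rat.num_div_den]
  rw [hcd]
  exact (hint _ (Rat.num_ne_zero.2 hc)).mul (hnat _ c.den_nz).inv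

end Rep

/-! ### Large primes -/

/-- `2^i 3^j` is an `N`-th power modulo `r` for suitable `i, j`. -/
lemma exists_pow {N : ℕ} [NeZero N] {r : ℕ} (hr : r.Prime) (h5 : 5 ≤ r) :
    ∃ i j : ℕ, i < N ∧ j < N ∧ Nat.gcd (Nat.gcd i j) N = 1 ∧
      ∃ g : ZMod r, g ^ N = ((2 ^ i * 3 ^ j : ℕ) : ZMod r) := by
  have : Fact r.Prime := ⟨hr⟩
  have hN : 0 < N := NeZero.pos N
  obtain ⟨g₀, hg₀⟩ := IsCyclic.exists_monoid_generator (α := (ZMod r)ˣ)
  have hu : ∀ k : ℕ, k ≠ 0 → k < r → ∃ b : ℕ, (k : ZMod r) = (g₀ : ZMod r) ^ b := by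
    intro k hk hkr
    have h0 : (k : ZMod r) ≠ 0 := by
      rw [Ne, ZMod.natCast_eq_zero_iff]
      intro h
      exact absurd (Nat.le_of_dvd (Nat.pos_of_ne_zero hk) h) (by omega)
    obtain ⟨b, hb⟩ := hg₀ (Units.mk0 _ h0)
    refine ⟨b, ?_⟩
    have := congrArg Units.val hb
    simp only [Units.val_pow_eq_pow_val, Units.val_mk0] at this
    exact this.symm
  obtain ⟨β, hβ⟩ := hu 2 (by norm_num) (by omega)
  obtain ⟨α, hα⟩ := hu 3 (by norm_num) (by omega)
  push_cast at hβ hα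
  set h := Nat.gcd α β with hh
  have hh0 : h ≠ 0 := by
    intro h0
    rw [hh, Nat.gcd_eq_zero_iff] at h0
    rw [h0.2, pow_zero] at hβ
    have : ((1 : ℕ) : ZMod r) = 0 := by
      have h1 : (2 : ZMod r) - 1 = 0 := by rw [hβ]; ring
      have h3 : (2 : ZMod r) - 1 = 1 := by ring
      rw [Nat.cast_one, ← h3, h1]
    rw [ZMod.natCast_eq_zero_iff] at this
    have := Nat.le_of_dvd one_pos this
    omega
  obtain ⟨α', hα'⟩ : h ∣ α := Nat.gcd_dvd_left α β
  obtain ⟨β', hβ'⟩ : h ∣ β := Nat.gcd_dvd_right α β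
  have hcop : Nat.Coprime α' β' := by
    have h1 : h * Nat.gcd α' β' = h := by
      rw [← Nat.gcd_mul_left, ← hα', ← hβ']
    exact Nat.eq_of_mul_eq_mul_left (Nat.pos_of_ne_zero hh0) (h1.trans (mul_one h).symm)
  -- the exponents
  refine ⟨α' % N, (N - β' % N) % N, Nat.mod_lt _ hN, Nat.mod_lt _ hN, ?_, ?_⟩
  · rw [Nat.eq_one_iff_not_exists_prime_dvd]
    intro p hp hpd
    have hpN : p ∣ N := hpd.trans (Nat.gcd_dvd_right _ _)
    have h1 : p ∣ α' % N := hpd.trans ((Nat.gcd_dvd_left _ _).trans (Nat.gcd_dvd_left _ _))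
    have h2 : p ∣ (N - β' % N) % N := hpd.trans ((Nat.gcd_dvd_left _ _).trans (Nat.gcd_dvd_right _ _))
    have h3 : p ∣ α' := (Nat.dvd_mod_iff hpN).1 h1
    have h4 : p ∣ N - β' % N := (Nat.dvd_mod_iff hpN).1 h2
    have h5 : p ∣ β' % N := by
      have h6 := Nat.mod_lt β' hN
      have h7 : β' % N = N - (N - β' % N) := by omega
      rw [h7]
      exact Nat.dvd_sub hpN h4
    have h6 : p ∣ β' := (Nat.dvd_mod_iff hpN).1 h5
    exact hp.one_lt.ne' (Nat.dvd_one.1 (hcop ▸ Nat.dvd_gcd h3 h6))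
  · obtain ⟨M, hM⟩ : N ∣ β * (α' % N) + α * ((N - β' % N) % N) := by
      have h1 : (((β * (α' % N) + α * ((N - β' % N) % N) : ℕ)) : ZMod N) = 0 := by
        have h2 : ((N - β' % N : ℕ) : ZMod N) = -(β' : ZMod N) := by
          rw [Nat.cast_sub (Nat.mod_lt β' hN).le, ZMod.natCast_mod, ZMod.natCast_self, zero_sub]
        rw [Nat.cast_add, Nat.cast_mul, Nat.cast_mul, ZMod.natCast_mod, ZMod.natCast_mod, h2, hα',
          hβ']
        push_cast
        ring
      rwa [ZMod.natCast_eq_zero_iff] at h1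
    refine ⟨(g₀ : ZMod r) ^ M, ?_⟩
    rw [← pow_mul, mul_comm M N, ← hM]
    push_cast
    rw [hβ, hα, ← pow_mul, ← pow_mul, ← pow_add]

/-- The constant. -/
def Cst (N : ℕ) : ℕ := N.factorial * (6 ^ N) ^ N

/-- A prime `r` divides a small nonzero value of the norm form. -/
lemma exists_small {N : ℕ} [NeZero N] {r : ℕ} (hr : r.Prime) {a : ℕ} (ha1 : 1 ≤ a)
    (ha : a ≤ 6 ^ N) (hirr : Irreducible (X ^ N - C (a : ℚ) : ℚ[X])) {g : ZMod r}
    (hg : g ^ N = (a : ZMod r)) :
    ∃ (u : Fin N → ℤ) (s : ℤ), s ≠ 0 ∧ s.natAbs ≤ Cst N ∧ nf N (a : ℤ) u = r * s := by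
  have : Fact r.Prime := ⟨hr⟩
  have hN : 0 < N := NeZero.pos N
  -- the size of the box
  obtain ⟨B, hB1, hB2⟩ : ∃ B : ℕ, B ^ N ≤ r ∧ r < (B + 1) ^ N := by
    have hex : ∃ B : ℕ, r < (B + 1) ^ N :=
      ⟨r, (Nat.lt_succ_self r).trans_le (Nat.le_self_pow hN.ne' _)⟩
    classical
    refine ⟨Nat.find hex, ?_, Nat.find_spec hex⟩
    rcases Nat.eq_zero_or_pos (Nat.find hex) with h0 | h0
    · rw [h0, zero_pow hN.ne']
      exact Nat.zero_le _
    · have := Nat.find_min hex (m := Nat.find hex - 1) (by omega)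
      rw [not_lt, Nat.sub_add_cancel h0] at this
      exact this
  -- pigeonhole
  obtain ⟨u, v, huv, h⟩ := Fintype.exists_ne_map_eq_of_card_lt
    (fun u : Fin N → Fin (B + 1) => ∑ k, ((u k : ℕ) : ZMod r) * g ^ (k : ℕ)) (by
      rw [ZMod.card, Fintype.card_fun, Fintype.card_fin, Fintype.card_fin]
      exact hB2)
  set w : Fin N → ℤ := fun k => ((u k : ℕ) : ℤ) - ((v k : ℕ) : ℤ) with hw
  have hw0 : w ≠ 0 := by
    intro h0
    apply huv
    funext k
    have := congrFun h0 k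
    simp only [hw, Pi.zero_apply] at this
    apply Fin.ext
    omega
  have hwB : ∀ k, |w k| ≤ B := by
    intro k
    have h1 := (u k).2
    have h2 := (v k).2
    rw [abs_le]
    simp only [hw]
    constructor <;> omega
  have hdvd : (r : ℤ) ∣ nf N (a : ℤ) w := by
    rw [← ZMod.intCast_zmod_eq_zero_iff_dvd]
    have h1 := nf_map (Int.castRingHom (ZMod r)) N (a : ℤ) w
    rw [eq_intCast] at h1
    rw [h1]
    apply nf_eq_zero_of_root (g := g)
    · rw [hg]
      simp
    · simp only [hw, eq_intCast, Int.cast_sub, Int.cast_natCast, sub_mul, Finset.sum_sub_distrib]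
      rw [h, sub_self]
  obtain ⟨s, hs⟩ := hdvd
  have hnf0 : nf N (a : ℤ) w ≠ 0 := by
    intro h0
    have h1 := nf_map (Int.castRingHom ℚ) N (a : ℤ) w
    rw [h0, map_zero] at h1
    have h3 : (fun k => (w k : ℚ)) ≠ 0 := by
      intro h2
      apply hw0
      funext k
      have := congrFun h2 k
      simpa using this
    refine nf_ne_zero hirr h3 ?_
    simpa using h1.symm
  refine ⟨w, s, ?_, ?_, hs⟩
  · rintro rfl
    rw [mul_zero] at hs
    exact hnf0 hs
  · have hdet : |nf N (a : ℤ) w| ≤ (N.factorial : ℤ) * ((a : ℤ) * B) ^ N := by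
      have h1 := Matrix.det_le (A := nmat N (a : ℤ) w) (abv := AbsoluteValue.abs)
        (x := (a : ℤ) * B) (by
          intro i j
          simp only [nmat, Matrix.of_apply, AbsoluteValue.abs_apply, abs_mul]
          have h2 := hwB (i - j)
          have h3 : |if j ≤ i then (1 : ℤ) else a| ≤ a := by
            split_ifs
            · rw [abs_one]
              exact_mod_cast ha1
            · rw [abs_of_nonneg (by positivity)]
          exact mul_le_mul h3 h2 (abs_nonneg _) (by positivity))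
      rw [Fintype.card_fin, nsmul_eq_mul, AbsoluteValue.abs_apply] at h1
      exact h1
    have h2 : ((nf N (a : ℤ) w).natAbs : ℤ) ≤ (N.factorial * (6 ^ N) ^ N * r : ℕ) := by
      rw [Int.natCast_natAbs]
      refine hdet.trans ?_
      have h3 : ((a : ℤ) * B) ^ N ≤ ((6 ^ N) ^ N * r : ℕ) := by
        rw [mul_pow]
        have h4 : a ^ N * B ^ N ≤ (6 ^ N) ^ N * r := Nat.mul_le_mul (Nat.pow_le_pow_left ha N) hB1
        exact_mod_cast h4
      calc (N.factorial : ℤ) * ((a : ℤ) * B) ^ N ≤ N.factorial * ((6 ^ N) ^ N * r : ℕ) :=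
            mul_le_mul_of_nonneg_left h3 (by positivity)
        _ = _ := by push_cast; ring
    have h3 : (nf N (a : ℤ) w).natAbs ≤ Cst N * r := by exact_mod_cast h2
    rw [hs, Int.natAbs_mul, Int.natAbs_natCast, mul_comm] at h3
    exact Nat.le_of_mul_le_mul_right h3 hr.pos

/-! ### The set of exponents -/

/-- The integers whose `N`-th roots are used. -/
def ASet (N : ℕ) : Set ℕ :=
  {a | (∃ i j : ℕ, i < N ∧ j < N ∧ Nat.gcd (Nat.gcd i j) N = 1 ∧ a = 2 ^ i * 3 ^ j) ∨
    (a.Prime ∧ a ≤ Cst N + 2)}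

lemma aset_finite (N : ℕ) : (ASet N).Finite := by
  apply Set.Finite.union
  · refine ((Set.finite_Iio N).prod (Set.finite_Iio N)).image (fun ij : ℕ × ℕ => 2 ^ ij.1 * 3 ^ ij.2)
      |>.subset ?_
    rintro a ⟨i, j, hi, hj, -, rfl⟩
    exact ⟨(i, j), ⟨hi, hj⟩, rfl⟩
  · exact (Set.finite_Iic (Cst N + 2)).subset fun a ha => ha.2

lemma val_prime {p : ℕ} (hp : p.Prime) : padicValNat p p = 1 := by
  have : Fact p.Prime := ⟨hp⟩
  exact padicValNat_self

lemma aset_irr {N : ℕ} (hN : N ≠ 0) {a : ℕ} (ha : a ∈ ASet N) :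
    Irreducible (X ^ N - C (a : ℚ) : ℚ[X]) := by
  rcases ha with ⟨i, j, -, -, hij, rfl⟩ | ⟨hp, -⟩
  · refine irr hN (by positivity) fun l hl hlN => ?_
    have h2 : padicValNat 2 (2 ^ i * 3 ^ j) = i := by
      have : Fact (Nat.Prime 2) := ⟨Nat.prime_two⟩
      rw [padicValNat.mul (by positivity) (by positivity), padicValNat.prime_pow,
        padicValNat.pow, padicValNat_primes (p := 2) (q := 3) (by norm_num)]
      simp
    have h3 : padicValNat 3 (2 ^ i * 3 ^ j) = j := by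
      have : Fact (Nat.Prime 3) := ⟨Nat.prime_three⟩
      have : Fact (Nat.Prime 2) := ⟨Nat.prime_two⟩
      rw [padicValNat.mul (by positivity) (by positivity), padicValNat.prime_pow,
        padicValNat.pow, padicValNat_primes (p := 3) (q := 2) (by norm_num)]
      simp
    by_cases h : l ∣ i
    · refine ⟨3, Nat.prime_three, ?_⟩
      rw [h3]
      intro h'
      have : l ∣ 1 := by
        rw [← hij]
        exact Nat.dvd_gcd (Nat.dvd_gcd h h') hlN
      exact hl.one_lt.ne' (Nat.dvd_one.1 this)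
    · exact ⟨2, Nat.prime_two, by rw [h2]; exact h⟩
  · refine irr hN hp.ne_zero fun l hl _ => ⟨a, hp, ?_⟩
    rw [val_prime hp]
    intro h
    exact hl.one_lt.ne' (Nat.dvd_one.1 h)

/-- Every rational number is a product of norms from finitely many fields `ℚ(a^(1/N))`. -/
theorem arith (N : ℕ) [NeZero N] : ∃ (m : ℕ) (a : Fin m → ℕ),
    (∀ i, Irreducible (X ^ N - C (a i : ℚ) : ℚ[X])) ∧ (∀ i, a i ≠ 0) ∧
      ∀ c : ℚ, ∃ u : Fin m → Fin N → ℚ, c = ∏ i, nf N (a i : ℚ) (u i) := by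
  classical
  have hN : N ≠ 0 := NeZero.ne N
  set S : Finset ℕ := (aset_finite N).toFinset with hS
  have hmem : ∀ a, a ∈ S ↔ a ∈ ASet N := fun a => by rw [hS, Set.Finite.mem_toFinset]
  let E : Fin S.card ≃ S := S.equivFin.symm
  let a : Fin S.card → ℕ := fun i => (E i : ℕ)
  have ha : ∀ b ∈ ASet N, ∃ i, a i = b := by
    intro b hb
    refine ⟨E.symm ⟨b, (hmem b).2 hb⟩, ?_⟩
    simp [a]
  have ha' : ∀ i, a i ∈ ASet N := fun i => (hmem _).1 (E i).2
  have h2 : (2 : ℕ) ∈ ASet N := Or.inr ⟨Nat.prime_two, by omega⟩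
  obtain ⟨i₂, hi₂⟩ := ha 2 h2
  have : Nonempty (Fin S.card) := ⟨i₂⟩
  have hirr : ∀ i, Irreducible (X ^ N - C (a i : ℚ) : ℚ[X]) := fun i => aset_irr hN (ha' i)
  -- small primes
  have hsmall : ∀ p : ℕ, p.Prime → p ≤ Cst N → Rep N a (p : ℚ) := by
    intro p hp hpC
    obtain ⟨i, hi⟩ := ha p (Or.inr ⟨hp, by omega⟩)
    have := rep_self (N := N) (a := a) hi₂ i
    rwa [hi] at this
  -- small numbers
  have hsm : ∀ n : ℕ, n ≠ 0 → n ≤ Cst N → Rep N a (n : ℚ) := by
    intro n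
    induction n using Nat.recOnMul with
    | zero => intro h0; exact absurd rfl h0
    | one => intro _ _; rw [Nat.cast_one]; exact rep_one
    | prime p hp => intro _ hle; exact hsmall p hp hle
    | mul m n hm hn =>
      intro h0 hle
      have hm0 := left_ne_zero_of_mul h0
      have hn0 := right_ne_zero_of_mul h0
      rw [Nat.cast_mul]
      refine (hm hm0 (le_trans ?_ hle)).mul (hn hn0 (le_trans ?_ hle))
      · exact Nat.le_mul_of_pos_right m (Nat.pos_of_ne_zero hn0)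
      · exact Nat.le_mul_of_pos_left n (Nat.pos_of_ne_zero hm0)
  have hprime : ∀ p : ℕ, p.Prime → Rep N a (p : ℚ) := by
    intro p hp
    by_cases hpC : p ≤ Cst N
    · exact hsmall p hp hpC
    have h6 : 5 ≤ p := by
      have h7 : 6 ≤ Cst N := by
        have h8 : 1 ≤ N.factorial := Nat.factorial_pos N
        have h9 : 6 ≤ (6 ^ N) ^ N := by
          calc 6 = 6 ^ 1 := by norm_num
            _ ≤ 6 ^ N := Nat.pow_le_pow_right (by norm_num) (NeZero.pos N)
            _ ≤ (6 ^ N) ^ N := Nat.le_self_pow hN _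
        calc 6 = 1 * 6 := by norm_num
          _ ≤ _ := Nat.mul_le_mul h8 h9
      omega
    obtain ⟨i, j, hi, hj, hij, g, hg⟩ := exists_pow (N := N) hp h6
    obtain ⟨k, hk⟩ := ha (2 ^ i * 3 ^ j) (Or.inl ⟨i, j, hi, hj, hij, rfl⟩)
    have hle : a k ≤ 6 ^ N := by
      rw [hk]
      calc 2 ^ i * 3 ^ j ≤ 2 ^ N * 3 ^ N :=
            Nat.mul_le_mul (Nat.pow_le_pow_right (by norm_num) hi.le)
              (Nat.pow_le_pow_right (by norm_num) hj.le)
        _ = 6 ^ N := by rw [← mul_pow]; norm_num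
    obtain ⟨u, s, hs0, hsC, hnf⟩ := exists_small (N := N) hp (a := a k)
      (by rw [hk]; exact Nat.one_le_iff_ne_zero.2 (by positivity)) hle (hirr k) (g := g)
      (by rw [hg, hk])
    have h1 : Rep N a ((p : ℚ) * s) := by
      have h2 := nf_map (Int.castRingHom ℚ) N (a k : ℤ) u
      rw [hnf] at h2
      simp only [map_mul, map_natCast, eq_intCast] at h2
      rw [h2]
      exact rep_single k _
    have h3 : Rep N a (s : ℚ) := by
      rcases Int.natAbs_eq s with h | h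
      · rw [h, Int.cast_natCast]
        exact hsm _ (Int.natAbs_ne_zero.2 hs0) hsC
      · rw [h]
        have : (((-(s.natAbs : ℤ)) : ℤ) : ℚ) = -1 * (s.natAbs : ℚ) := by
          rw [Int.cast_neg, Int.cast_natCast]; ring
        rw [this]
        exact (rep_neg_one hi₂).mul (hsm _ (Int.natAbs_ne_zero.2 hs0) hsC)
    have h4 : (p : ℚ) = (p : ℚ) * s * (s : ℚ)⁻¹ := by
      rw [mul_assoc, mul_inv_cancel₀ (Int.cast_ne_zero.2 hs0), mul_one]
    rw [h4]
    exact h1.mul h3.inv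
  refine ⟨S.card, a, hirr, fun i => ?_, fun c => ?_⟩
  · rcases ha' i with ⟨x, y, -, -, -, h⟩ | ⟨h, -⟩
    · rw [h]; positivity
    · exact h.ne_zero
  · by_cases hc : c = 0
    · refine ⟨fun _ _ => 0, ?_⟩
      rw [hc]
      symm
      apply Finset.prod_eq_zero (Finset.mem_univ i₂)
      have := nf_smul N (a i₂ : ℚ) 0 (fun _ => 0)
      simp only [mul_zero, zero_mul, zero_pow hN] at this
      exact this
    · exact rep_of_primes hi₂ hprime c hc

end Pool.Agent.SepQ
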