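import Pool.Agent.SepQ.NForm

/-!
# Irreducibility of `X^N - a`
-/

open Polynomial

namespace Pool.Agent.SepQ

/-- `X^N - a` is irreducible over `ℚ` if for every prime `ℓ ∣ N` some exponent of `a` is prime to
`ℓ`. -/
lemma irr {N : ℕ} (hN : N ≠ 0) {a : ℕ} (ha : a ≠ 0)
    (h : ∀ l : ℕ, l.Prime → l ∣ N → ∃ s : ℕ, s.Prime ∧ ¬ l ∣ padicValNat s a) :
    Irreducible (X ^ N - C (a : ℚ) : ℚ[X]) := by
  have hne : (X ^ N - C (a : ℚ) : ℚ[X]) ≠ 0 := X_pow_sub_C_ne_zero (Nat.pos_of_ne_zero hN) _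
  have hnu : ¬ IsUnit (X ^ N - C (a : ℚ) : ℚ[X]) := by
    intro hu
    have h1 := natDegree_eq_zero_of_isUnit hu
    rw [natDegree_X_pow_sub_C] at h1
    exact hN h1
  obtain ⟨g, hg, hgd⟩ := WfDvdMonoid.exists_irreducible_factor hnu hne
  have : Fact (Irreducible g) := ⟨hg⟩
  set d := g.natDegree with hd
  have hfin : Module.finrank ℚ (AdjoinRoot g) = d := by
    rw [(AdjoinRoot.powerBasis hg.ne_zero).finrank, AdjoinRoot.powerBasis_dim]
  have : FiniteDimensional ℚ (AdjoinRoot g) := (AdjoinRoot.powerBasis hg.ne_zero).finite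
  have hroot : AdjoinRoot.root g ^ N = algebraMap ℚ (AdjoinRoot g) (a : ℚ) := by
    obtain ⟨k, hk⟩ := hgd
    have h1 : eval₂ (algebraMap ℚ (AdjoinRoot g)) (AdjoinRoot.root g) (X ^ N - C (a : ℚ)) = 0 := by
      rw [hk, eval₂_mul]
      have := AdjoinRoot.eval₂_root g
      have e : algebraMap ℚ (AdjoinRoot g) = AdjoinRoot.of g := Subsingleton.elim _ _
      rw [e, this, zero_mul]
    rw [eval₂_sub, eval₂_X_pow, eval₂_C, sub_eq_zero] at h1
    exact h1
  set ν : ℚ := Algebra.norm ℚ (AdjoinRoot.root g) with hν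
  have hν1 : ν ^ N = (a : ℚ) ^ d := by
    rw [hν, ← map_pow, hroot, Algebra.norm_algebraMap, hfin]
  have hdvd : N ∣ d := by
    rw [Nat.dvd_iff_prime_pow_dvd_dvd]
    intro l k hl hk
    rcases Nat.eq_zero_or_pos k with rfl | hkpos
    · simp
    have hlN : l ∣ N := (dvd_pow_self l hkpos.ne').trans hk
    obtain ⟨s, hs, hsl⟩ := h l hl hlN
    have : Fact s.Prime := ⟨hs⟩
    have hν0 : ν ≠ 0 := by
      intro h0
      rw [h0, zero_pow hN] at hν1
      exact pow_ne_zero d (Nat.cast_ne_zero.2 ha) hν1.symm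
    have hv : (N : ℤ) * padicValRat s ν = d * padicValNat s a := by
      have h1 := congrArg (padicValRat s) hν1
      rw [padicValRat.pow, padicValRat.pow, padicValRat.of_nat] at h1
      exact h1
    have h2 : ((l ^ k : ℕ) : ℤ) ∣ ((d * padicValNat s a : ℕ) : ℤ) := by
      rw [Nat.cast_mul, ← hv]
      exact Dvd.dvd.mul_right (by exact_mod_cast hk) _
    have h3 : l ^ k ∣ d * padicValNat s a := by exact_mod_cast h2
    exact (Nat.Coprime.pow_left k ((Nat.Prime.coprime_iff_not_dvd hl).2 hsl)).dvd_of_dvd_mul_right h3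
  have hle : d ≤ N := by
    have := natDegree_le_of_dvd hgd hne
    rwa [natDegree_X_pow_sub_C] at this
  have hdN : d = N := by
    rcases Nat.eq_zero_or_pos d with h0 | h0
    · exact absurd h0 hg.natDegree_pos.ne'
    · exact le_antisymm hle (Nat.le_of_dvd h0 hdvd)
  obtain ⟨k, hk⟩ := hgd
  have hk0 : k ≠ 0 := by
    rintro rfl
    rw [mul_zero] at hk
    exact hne hk
  have hkd : k.natDegree = 0 := by
    have h1 := congrArg natDegree hk
    rw [natDegree_X_pow_sub_C, natDegree_mul hg.ne_zero hk0] at h1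
    omega
  have hku : IsUnit k := by
    rw [Polynomial.isUnit_iff_degree_eq_zero, degree_eq_natDegree hk0, hkd]
    rfl
  rw [hk]
  exact (irreducible_mul_isUnit hku).2 hg

end Pool.Agent.SepQ
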