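import Mathlib

/-!
# Norm forms of pure extensions

`nf n a u` is the norm of `∑ u_k θ^k` for `θ^n = a`, as an explicit determinant.
-/

open Polynomial

namespace Pool.Agent.SepQ

section Ring

variable {R : Type*} [CommRing R]

/-- The matrix of multiplication by `∑ u_k θ^k` in the basis `1, θ, …, θ^(n-1)`, where
`θ^n = a`. -/
def nmat (n : ℕ) [NeZero n] (a : R) (u : Fin n → R) : Matrix (Fin n) (Fin n) R :=
  Matrix.of fun i j => (if j ≤ i then 1 else a) * u (i - j)

/-- The norm form of `θ^n = a`. -/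
def nf (n : ℕ) [NeZero n] (a : R) (u : Fin n → R) : R := (nmat n a u).det

lemma nf_map {S : Type*} [CommRing S] (φ : R →+* S) (n : ℕ) [NeZero n] (a : R) (u : Fin n → R) :
    φ (nf n a u) = nf n (φ a) (fun i => φ (u i)) := by
  unfold nf
  rw [RingHom.map_det]
  congr 1
  ext i j
  simp only [nmat, RingHom.mapMatrix_apply, Matrix.map_apply, Matrix.of_apply, map_mul]
  split_ifs <;> simp

lemma key {S : Type*} [CommRing S] (φ : R →+* S) {n : ℕ} [NeZero n] {a : R} {g : S}
    (hg : g ^ n = φ a) (u : Fin n → R) (j : Fin n) :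
    (∑ k, φ (u k) * g ^ (k : ℕ)) * g ^ (j : ℕ) = ∑ i, φ (nmat n a u i j) * g ^ (i : ℕ) := by
  rw [← Equiv.sum_comp (Equiv.addRight j) (fun i => φ (nmat n a u i j) * g ^ (i : ℕ)),
    Finset.sum_mul]
  refine Finset.sum_congr rfl fun k _ => ?_
  simp only [nmat, Matrix.of_apply, Equiv.coe_addRight, add_sub_cancel_right, map_mul]
  have hk := k.2
  have hj := j.2
  by_cases h : n ≤ (k : ℕ) + j
  · have h1 : ((k + j : Fin n) : ℕ) = k + j - n := by
      rw [Fin.val_add_eq_ite, if_pos h]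
    have h2 : ¬ j ≤ k + j := by
      rw [Fin.le_def, h1]
      omega
    rw [if_neg h2, h1, ← hg]
    have h3 : g ^ (k : ℕ) * g ^ (j : ℕ) = g ^ n * g ^ ((k : ℕ) + j - n) := by
      rw [← pow_add, ← pow_add]
      congr 1
      omega
    calc _ = φ (u k) * (g ^ (k : ℕ) * g ^ (j : ℕ)) := by ring
      _ = _ := by rw [h3]; ring
  · have h1 : ((k + j : Fin n) : ℕ) = k + j := by
      rw [Fin.val_add_eq_ite, if_neg h]
    have h2 : j ≤ k + j := by
      rw [Fin.le_def, h1]
      omega
    rw [if_pos h2, h1, map_one, pow_add]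
    ring

/-- If `∑ u_k g^k = 0` for some `g` with `g^n = a` then the norm form vanishes. -/
lemma nf_eq_zero_of_root [IsDomain R] {n : ℕ} [NeZero n] {a g : R} (hg : g ^ n = a)
    {u : Fin n → R} (hu : ∑ k, u k * g ^ (k : ℕ) = 0) : nf n a u = 0 := by
  rw [nf, ← Matrix.exists_vecMul_eq_zero_iff]
  refine ⟨fun i => g ^ (i : ℕ), ?_, ?_⟩
  · intro h
    have := congrFun h 0
    simp at this
  · ext j
    have h := key (RingHom.id R) (n := n) (a := a) (g := g) hg u j
    simp only [RingHom.id_apply] at h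
    rw [hu, zero_mul] at h
    rw [Matrix.vecMul, dotProduct, Pi.zero_apply, h]
    exact Finset.sum_congr rfl fun i _ => mul_comm _ _

lemma nf_smul (n : ℕ) [NeZero n] (a c : R) (u : Fin n → R) :
    nf n a (fun i => c * u i) = c ^ n * nf n a u := by
  have h : nmat n a (fun i => c * u i) = c • nmat n a u := by
    ext i j
    simp only [nmat, Matrix.of_apply, Matrix.smul_apply, smul_eq_mul]
    ring
  rw [nf, h, Matrix.det_smul, Fintype.card_fin, nf]

end Ring

section Field

variable {F : Type*} [Field F]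

/-- The power basis of `F[θ]`, `θ^n = a`. -/
noncomputable def bas (n : ℕ) [NeZero n] (a : F) :
    Module.Basis (Fin n) F (AdjoinRoot (X ^ n - C a : F[X])) :=
  (AdjoinRoot.powerBasis (X_pow_sub_C_ne_zero (NeZero.pos n) a)).basis.reindex
    (finCongr (by rw [AdjoinRoot.powerBasis_dim, natDegree_X_pow_sub_C]))

lemma bas_apply (n : ℕ) [NeZero n] (a : F) (i : Fin n) :
    bas n a i = AdjoinRoot.root (X ^ n - C a : F[X]) ^ (i : ℕ) := by
  simp [bas, AdjoinRoot.powerBasis_gen]

lemma root_pow (n : ℕ) [NeZero n] (a : F) :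
    AdjoinRoot.root (X ^ n - C a : F[X]) ^ n = AdjoinRoot.of (X ^ n - C a : F[X]) a := by
  have h := AdjoinRoot.eval₂_root (X ^ n - C a : F[X])
  rw [eval₂_sub, eval₂_X_pow, eval₂_C, sub_eq_zero] at h
  exact h

/-- The element `∑ u_k θ^k`. -/
noncomputable def elt (n : ℕ) [NeZero n] (a : F) (u : Fin n → F) :
    AdjoinRoot (X ^ n - C a : F[X]) := ∑ k, u k • bas n a k

lemma nf_eq_norm (n : ℕ) [NeZero n] (a : F) (u : Fin n → F) :
    nf n a u = Algebra.norm F (elt n a u) := by
  rw [Algebra.norm_eq_matrix_det (bas n a), nf]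
  congr 1
  ext i j
  rw [Algebra.leftMulMatrix_eq_repr_mul]
  have h := key (AdjoinRoot.of (X ^ n - C a : F[X])) (root_pow n a) u j
  have h1 : elt n a u * bas n a j = ∑ i, nmat n a u i j • bas n a i := by
    rw [elt, bas_apply]
    simp only [bas_apply, Algebra.smul_def]
    exact h
  rw [h1, map_sum, Finsupp.finsetSum_apply]
  simp [Finsupp.single_apply]

lemma exists_elt (n : ℕ) [NeZero n] (a : F) (x : AdjoinRoot (X ^ n - C a : F[X])) :
    ∃ u, elt n a u = x := ⟨(bas n a).equivFun x, (bas n a).sum_equivFun x⟩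

lemma nf_mul (n : ℕ) [NeZero n] (a : F) (u v : Fin n → F) :
    ∃ w, nf n a u * nf n a v = nf n a w := by
  obtain ⟨w, hw⟩ := exists_elt n a (elt n a u * elt n a v)
  exact ⟨w, by rw [nf_eq_norm, nf_eq_norm, nf_eq_norm, hw, map_mul]⟩

lemma nf_pow (n : ℕ) [NeZero n] (a c : F) : ∃ w, c ^ n = nf n a w := by
  obtain ⟨w, hw⟩ := exists_elt n a (algebraMap F _ c)
  refine ⟨w, ?_⟩
  rw [nf_eq_norm, hw, Algebra.norm_algebraMap_of_basis (bas n a), Fintype.card_fin]

/-- an element of norm `± a` -/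
lemma nf_root (n : ℕ) [NeZero n] (a : F) : ∃ w, nf n a w ^ n = a ^ n := by
  obtain ⟨w, hw⟩ := exists_elt n a (AdjoinRoot.root (X ^ n - C a : F[X]))
  refine ⟨w, ?_⟩
  rw [nf_eq_norm, hw, ← map_pow, root_pow]
  exact (Algebra.norm_algebraMap_of_basis (bas n a) a).trans (by rw [Fintype.card_fin])

lemma nf_ne_zero {n : ℕ} [NeZero n] {a : F} (h : Irreducible (X ^ n - C a : F[X]))
    {u : Fin n → F} (hu : u ≠ 0) : nf n a u ≠ 0 := by
  have : Fact (Irreducible (X ^ n - C a : F[X])) := ⟨h⟩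
  have : FiniteDimensional F (AdjoinRoot (X ^ n - C a : F[X])) := Module.Finite.of_basis (bas n a)
  rw [nf_eq_norm, Ne, Algebra.norm_eq_zero_iff]
  intro h0
  apply hu
  have h1 : (bas n a).equivFun (elt n a u) = u := by
    have : elt n a u = (bas n a).equivFun.symm u := by
      rw [Module.Basis.equivFun_symm_apply]
      rfl
    rw [this, LinearEquiv.apply_symm_apply]
  rw [← h1, h0, map_zero]

end Field

end Pool.Agent.SepQ
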